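import Pool.Agent.Q98.Coset

/-!
# The number of steps of a coset-counting recurrence algorithm in `F_2` (MP_f02465_al)

The algorithm always ends within `[F_2 : H]` steps.
-/

set_option autoImplicit false

namespace Pool.Agent.Results.MP_f02465_al.StepBound

/-- The free group on two letters `a`, `b`. -/
abbrev F2 : Type := FreeGroup (Fin 2)

/-- The four letters `a`, `b`, `a⁻¹`, `b⁻¹`. -/
abbrev Letter : Type := Fin 2 × Bool

/-- The edges of the directed coset graph: the pair `(C, h)` is the edge from `C` to `h • C`. -/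
abbrev Edge (H : Subgroup F2) : Type := (F2 ⧸ H) × Letter

/-- The vertex which the edge leaves. -/
def source {H : Subgroup F2} (e : Edge H) : F2 ⧸ H := e.1

/-- The vertex at which the edge ends. -/
def target {H : Subgroup F2} (e : Edge H) : F2 ⧸ H := FreeGroup.mk [e.2] • e.1

/-- The set of the edges highlighted at step `i` (for `i ≥ 1`): `E 1` consists of the edges leaving
`yH`; `E (i + 1)` consists of the edges from `tH` to `sH` such that some edge of `E i` ends at `tH`
and no edge of `E i` goes from `sH` to `tH`. -/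
def E (H : Subgroup F2) (y : F2) : ℕ → Set (Edge H)
  | 0 => ∅
  | 1 => {e | source e = (y : F2 ⧸ H)}
  | (n + 2) => {e | (∃ e' ∈ E H y (n + 1), target e' = source e) ∧
      ¬ ∃ e' ∈ E H y (n + 1), source e' = target e ∧ target e' = source e}

open Pool.Agent.Q98.Coset

theorem E_eq (H : Subgroup F2) (y : F2) : ∀ i : ℕ, E H y i = ES (y : F2 ⧸ H) i
  | 0 => (ES_zero _).symm
  | 1 => by
    ext e
    simp [E, ES, T, source]
  | (n + 2) => by
    have ih := E_eq H y (n + 1)
    ext e
    simp only [E]
    rw [ih]
    constructor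
    · rintro ⟨⟨e', he', h1⟩, h2⟩
      have h3 : e.1 ∈ T (y : F2 ⧸ H) (n + 3) := by
        have := T_step (y : F2 ⧸ H) he'.1
        have h4 : tgt e' = e.1 := h1
        rwa [h4] at this
      refine ⟨h3, fun h4 => h2 ⟨(tgt e, Pool.Agent.Q98.Coset.inv e.2), ⟨h4, ?_⟩, rfl, tgt_inv e⟩⟩
      rw [tgt_inv]
      have h5 : tgt e' = e.1 := h1
      rw [← h5]
      exact he'.2
    · rintro ⟨h1, h2⟩
      obtain ⟨e', h3, h4⟩ := h1
      refine ⟨⟨e', ⟨h3, ?_⟩, h4⟩, ?_⟩
      · rw [h4]
        intro h5
        exact h2 (T_step _ h5)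
      · rintro ⟨e'', ⟨h5, -⟩, h6, -⟩
        apply h2
        have h7 : e''.1 = tgt e := h6
        rw [← h7]
        exact h5

/-- For every subgroup `H` of finite index of `F_2` and every `y`, no edge is highlighted after
step `[F_2 : H]`. -/
theorem result (H : Subgroup F2) (hH : H.FiniteIndex) (y : F2) (i : ℕ) (hi : H.index < i) :
    E H y i = ∅ := by
  haveI := hH
  haveI : Finite (F2 ⧸ H) := Subgroup.finite_quotient_of_finiteIndex
  rw [E_eq, ← Set.not_nonempty_iff_eq_empty]
  intro h
  exact absurd (bound _ i h) (by omega)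

end Pool.Agent.Results.MP_f02465_al.StepBound
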